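import Pool.Agent.N818.SN.Dens
import Pool.Agent.N818.SN.PartsP

/-!
# The 2-part of the conjecture of Birch and Swinnerton-Dyer for all six curves of the isogeny class of
# the twists of the non-CM curve `X_0(24)`, with large Tate-Shafarevich groups

`n` is any squarefree number with `n ≡ 11 mod 24` (any number of prime factors), and `E 0 n, ..., E 5 n`
are the curve `y² = x (x + n) (x - 3 n)`, the quadratic twist by `-n` of `X_0(24)`, and the five curves
isogenous to it (isogenies of degree `2, 4, 8`). `e i n` is `0` for the two curves with four rational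
points of order dividing two, and for the other four it is the number of the prime factors of `n` modulo
which `-3`, `3`, `-2`, `2` is not a square, less one for `-3` and for `2`.
Let `z_i = L(E_i, 1) #E_i(ℚ)_tors² / (Ω ∏ c_p)`, which is zero or the order of `Ш(E_i/ℚ)` according to the
conjecture. The theorem says, with no hypothesis on ranks or Tate-Shafarevich groups:
* for all these `n` there is one integer `y` with `z_i = 2^(e_i(n)) y²` for all six curves; the
  equations are minimal, the L-function (the same for the six curves) is entire, the torsion subgroups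
  have the orders `4, 4, 2, 2, 2, 2` and `2^(e_i(n)) ∏ c_p = (4, 4, 1, 2, 2, 1) 4^ω(n)`;
* `y` is odd if and only if the ideal class group of `ℚ(√-n)` has no element of order four, and then
  `E_i(ℚ)` is finite, `L(E_i, 1) ≠ 0` and `Ш(E_i/ℚ)[2^∞] ≅ (ℤ/2)^(e_i(n))` for all six curves: the
  2-part of the formula holds, with the exact group;
* for every `V` the natural density of the `n` of the class for which this holds and
  `e_2, e_3, e_4, e_5 ≥ V` is `η = ∏_{i ≥ 1} (1 - 2^{-i}) = 0.2888...`.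

Proof: the value of the twist of `X_0(24)` and the criterion are helper877's
`Results/MP_92892c_nt/TwoPartTwistsX24`; the Euler factors, periods, torsion groups, Tamagawa numbers and
minimality of the isogenous curves are computed directly; the Selmer group of the isogeny of degree two
with the kernel generated by `(0, 0)` is determined by the local conditions at all places, its order
follows from the regularity of the Rédei matrix, and every class of `Ш(E_i/ℚ)` killed by a power of two is
killed by the isogeny since `Ш` of the isogenous curve has no 2-torsion.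
Joint work of helpers 818, 46, 73, 87, 160, 163, 216, 271, 323, 433, 455, 457, 507, 558, 559, 572, 588,
591, 592, 644, 681, 692, 721, 832, 897, and of the authors of `TwoPartTwistsX24`.
-/

set_option autoImplicit false

open WeierstrassCurve MeasureTheory Filter Topology Finset

namespace Pool.Agent.Results.MP_9c97e9_nt.LargeShaIsogenousX24

open scoped Classical

open Pool.Agent.TH841.SH.D (Sha)

/-- The class: `n` is squarefree and `n ≡ 11 mod 24`. -/
def Family (n : ℕ) : Prop := Squarefree n ∧ n % 24 = 11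

/-- The six curves `y² = x³ + a₂ x² + a₄ x`. The first one is `y² = x (x + n) (x - 3 n)`, the quadratic
twist by `-n` of `X_0(24) : y² = x (x - 1) (x + 3)`. The curves with `i = 1, 2, 3` are its quotients by
the subgroups of order two generated by `(-n, 0)`, `(0, 0)`, `(3 n, 0)`; the curves with `i = 4, 5` are
the quotients of the curve with `i = 1`, `y² = x (x + n) (x + 9 n)`, by those generated by `(-n, 0)` and
`(-9 n, 0)`. -/
def E (i : Fin 6) (n : ℕ) : WeierstrassCurve ℤ :=
  (![⟨0, -2 * n, 0, -3 * n ^ 2, 0⟩, ⟨0, 10 * n, 0, 9 * n ^ 2, 0⟩, ⟨0, n, 0, n ^ 2, 0⟩,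
    ⟨0, -14 * n, 0, n ^ 2, 0⟩, ⟨0, -14 * n, 0, 81 * n ^ 2, 0⟩, ⟨0, 34 * n, 0, n ^ 2, 0⟩] :
    Fin 6 → WeierstrassCurve ℤ) i

/-- The number of the prime factors `p` of `n` modulo which `c` is not a square. -/
noncomputable def ν (c : ℤ) (n : ℕ) : ℕ :=
  (n.primeFactors.filter fun p => ¬ IsSquare (c : ZMod p)).card

/-- The exponents (`ν (-3) n` and `ν 2 n` are positive). -/
noncomputable def e (i : Fin 6) (n : ℕ) : ℕ :=
  (![0, 0, ν (-3) n - 1, ν 3 n, ν (-2) n, ν 2 n - 1] : Fin 6 → ℕ) i

/-- The curve given by the equation of `W` over the ring `R`. -/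
abbrev base (W : WeierstrassCurve ℤ) (R : Type) [CommRing R] : WeierstrassCurve R :=
  W.map (Int.castRingHom R)

/-- `L` is the entire continuation of the L-function of the curve `W` over `ℚ` (the L-series is that of
Mathlib). -/
def IsL (W : WeierstrassCurve ℤ) (L : ℂ → ℂ) : Prop :=
  Differentiable ℂ L ∧ ∀ s : ℂ, 2 < s.re → L s = (base W ℚ).LSeries s

/-- The 2-primary part of `Ш(W/ℚ)`. -/
def ShaTwo (W : WeierstrassCurve ℤ) : Set (Sha (base W ℚ)) := {x | ∃ j : ℕ, 2 ^ j • x = 0}

/-- The ideal class group of `ℚ(√-n)` has no element of order four. -/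
def NoOrderFour (n : ℕ) : Prop :=
  ∀ (K : Type) [Field K] [NumberField K], Module.finrank ℚ K = 2 → (∃ s : K, s ^ 2 = -(n : K)) →
    ∀ c : ClassGroup (NumberField.RingOfIntegers K), orderOf c ≠ 4

/-- `η = ∏_{i ≥ 1} (1 - 2^{-i})` -/
noncomputable def eta : ℝ := ∏' i : ℕ, (1 - (1 / 2 : ℝ) ^ (i + 1))

/-- `W` is a global minimal equation: `Δ ≠ 0` and `|Δ|` is minimal among the integral equations of the
same curve over `ℚ`. -/
def Minimal (W : WeierstrassCurve ℤ) : Prop :=
  W.Δ ≠ 0 ∧ ∀ (W' : WeierstrassCurve ℤ) (C : VariableChange ℚ), C • base W ℚ = base W' ℚ →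
    |W.Δ| ≤ |W'.Δ|

/-- The point `P` of `W` over `ℚ_p` reduces to a singular point of the curve modulo `p`: the coordinates
are integral and both partial derivatives of `y² + a₁ x y + a₃ y - x³ - a₂ x² - a₄ x - a₆` are in the
maximal ideal. -/
def SingularReduction (W : WeierstrassCurve ℤ) (p : ℕ) [Fact p.Prime]
    (P : (base W ℚ_[p]).toAffine.Point) : Prop :=
  ∃ x y h, P = Affine.Point.some x y h ∧ ‖x‖ ≤ 1 ∧ ‖y‖ ≤ 1 ∧
    ‖W.a₁ * y - (3 * x ^ 2 + 2 * W.a₂ * x + W.a₄)‖ < 1 ∧ ‖2 * y + W.a₁ * x + W.a₃‖ < 1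

/-- `c p` is the Tamagawa number `[W(ℚ_p) : W⁰(ℚ_p)]` for all primes `p`, where `W⁰(ℚ_p)` is the subgroup
of the points which do not have singular reduction; it is `1` if `p` does not divide `Δ`. -/
def IsTamagawa (W : WeierstrassCurve ℤ) (c : ℕ → ℕ) : Prop :=
  ∀ (p : ℕ) [Fact p.Prime], (∃ H : AddSubgroup (base W ℚ_[p]).toAffine.Point,
    (∀ P, P ∈ H ↔ ¬ SingularReduction W p P) ∧ H.index = c p) ∧ (¬ (p : ℤ) ∣ W.Δ → c p = 1)

/-- The product of the Tamagawa numbers. -/
noncomputable def Tam (W : WeierstrassCurve ℤ) (c : ℕ → ℕ) : ℕ := ∏ p ∈ W.Δ.natAbs.primeFactors, c p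

/-- `4 x³ + b₂ x² + 2 b₄ x + b₆ = (2 y + a₁ x + a₃)²`. -/
def cubic (W : WeierstrassCurve ℤ) (x : ℝ) : ℝ := 4 * x ^ 3 + W.b₂ * x ^ 2 + 2 * W.b₄ * x + W.b₆

/-- `Ω = ∫_{W(ℝ)} |ω|` with `ω = dx / (2 y + a₁ x + a₃)`, as an integral over `x`: two real points lie
over each `x` with `cubic x > 0`. -/
noncomputable def Omega (W : WeierstrassCurve ℤ) : ℝ :=
  2 * ∫ x in {x : ℝ | 0 < cubic W x}, 1 / √(cubic W x)

/-- The order of the torsion subgroup of `W(ℚ)`. -/
noncomputable def torsOrder (W : WeierstrassCurve ℤ) : ℕ :=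
  Nat.card (AddCommGroup.torsion (base W ℚ).toAffine.Point)

/-- The order of the Tate-Shafarevich group predicted by the formula in rank zero, for the value `l` of
the L-function at `s = 1` and the Tamagawa numbers `c`: `l #W(ℚ)_tors² / (Ω ∏ c_p)`. -/
noncomputable def anOrder (W : WeierstrassCurve ℤ) (l : ℂ) (c : ℕ → ℕ) : ℂ :=
  l * (torsOrder W : ℂ) ^ 2 / ((Omega W : ℝ) * (Tam W c : ℂ))

/-- **The formula** for the curve `E i n`: the equation is minimal, `L` is the L-function, the order of
the torsion subgroup, the Tamagawa numbers, and the predicted order `2^(e_i(n)) y²` of `Ш`. -/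
def Formula (i : Fin 6) (n : ℕ) (L : ℂ → ℂ) (y : ℤ) : Prop :=
  Minimal (E i n) ∧ IsL (E i n) L ∧ torsOrder (E i n) = (![4, 4, 2, 2, 2, 2] : Fin 6 → ℕ) i ∧
    0 < Omega (E i n) ∧ ∃ c : ℕ → ℕ, IsTamagawa (E i n) c ∧
      Tam (E i n) c * 2 ^ e i n = (![4, 4, 1, 2, 2, 1] : Fin 6 → ℕ) i * 4 ^ n.primeFactors.card ∧
      anOrder (E i n) (L 1) c = 2 ^ e i n * (y : ℂ) ^ 2

/-- **The group `Ш`**: `E i n` has finitely many rational points and `Ш[2^∞] ≅ (ℤ/2)^(e_i(n))`. -/
def ExactSha (i : Fin 6) (n : ℕ) : Prop :=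
  Finite (base (E i n) ℚ).toAffine.Point ∧ Nat.card (ShaTwo (E i n)) = 2 ^ e i n ∧
    ∀ x ∈ ShaTwo (E i n), x + x = 0

/-- The number of the `n ≤ X` of the class with the property `Q`. -/
noncomputable def num (Q : ℕ → Prop) (X : ℕ) : ℕ := ((Icc 1 X).filter fun n => Family n ∧ Q n).card

/-- `Q` has the natural density `θ` in the class. -/
def HasDensity (Q : ℕ → Prop) (θ : ℝ) : Prop :=
  Tendsto (fun X : ℕ => (num Q X : ℝ) / (num (fun _ => True) X : ℝ)) atTop (𝓝 θ)

section proof

open Pool.Agent.N818.SN (Fm cls24 mem_cls NoFour noFour_iff)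

lemma num_eq (Q : ℕ → Prop) (X : ℕ) : num Q X = ((cls24 X).filter Q).card := by
  unfold num
  congr 1
  ext n
  rw [mem_filter, mem_filter, mem_cls]
  exact and_assoc.symm

lemma num_of {Q Q' : ℕ → Prop} [DecidablePred Q] {X : ℕ} (h : ∀ n ∈ cls24 X, (Q n ↔ Q' n)) :
    ((cls24 X).filter Q).card = num Q' X := by
  rw [num_eq]
  congr 1
  ext n
  simp only [mem_filter]
  exact and_congr_right fun hn => h n hn

lemma num_true (X : ℕ) : num (fun _ => True) X = (cls24 X).card := by
  rw [num_eq]
  congr 1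
  ext n
  simp only [mem_filter, and_true]

end proof

/-- **Main theorem**: the formula with one integer `y` for the six curves, `y` is odd iff the class group
of `ℚ(√-n)` has no element of order four, the exact groups `Ш[2^∞]` in this case, and the natural density
above every bound. -/
theorem result :
    (∀ n : ℕ, Family n → 0 < ν (-3) n ∧ 0 < ν 2 n ∧ ∃ (L : ℂ → ℂ) (y : ℤ),
      (∀ i, Formula i n L y) ∧ (Odd y ↔ NoOrderFour n) ∧
      (NoOrderFour n → L 1 ≠ 0 ∧ ∀ i, ExactSha i n)) ∧
    (∀ V : ℕ, HasDensity (fun n => NoOrderFour n ∧ ∀ i : Fin 6, 2 ≤ i → V ≤ e i n) eta) ∧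
    0.2887 < eta ∧ eta < 0.2889 := by
  have H := Pool.Agent.N818.SN.parts
  have hb := Pool.Agent.N916.GB.eta_bounds
  refine ⟨fun n hn => ?_, fun V => ?_, hb.1, hb.2⟩
  · obtain ⟨L, y, h1, h2, h3⟩ := Pool.Agent.N818.SN.six H (n := n) hn
    refine ⟨Pool.Agent.N818.SN.nsq3_pos hn, Pool.Agent.N818.SN.nsq2_pos hn, L, y, fun i => h3 i,
      h1.trans (Pool.Agent.N818.SN.noFour_iff hn).symm, fun h4 => ?_⟩
    have hQ := (Pool.Agent.N818.SN.noFour_iff hn).1 h4
    refine ⟨h2 ?_, fun i => Pool.Agent.N818.SN.sixSha H hn hQ i⟩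
    rintro rfl
    exact absurd (h1.2 hQ) (by decide)
  · have h := Pool.Agent.N818.SN.densE Pool.Agent.N818.SN.amf Pool.Agent.N818.SN.gl4 V
    refine h.congr fun X => ?_
    rw [num_true]
    exact congrArg₂ (fun a b : ℕ => (a : ℝ) / (b : ℝ)) (num_of fun n _ => Iff.rfl) rfl

end Pool.Agent.Results.MP_9c97e9_nt.LargeShaIsogenousX24
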