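import Pool.Agent.N818.SL.Mod
import Pool.Agent.N818.SL.Den
import Pool.Agent.N46.SL.LS
import Pool.Agent.N402.SL.SP
import Pool.Agent.N407.SL.Fin
import Pool.Agent.N482.SL.NP
import Pool.Agent.N499.SL.S2
import Pool.Agent.N603.SL.OM
import Pool.Agent.N756.SL.Tam
import Pool.Agent.N849.SL.La
import Pool.Agent.Results.MP_4a9ea6_nt.TwoPartDensityX49

/-!
# The 2-part of the conjecture of Birch and Swinnerton-Dyer with large Tate-Shafarevich groups: the
# curves 2-isogenous to the quadratic twists of `X_0(49)`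

`D` is any squarefree number with `D ≡ 1 mod 4` and `7 ∤ D`, and `E'_D` is the quadratic twist by `D` of
`y² = x³ - 42 x² - 7 x`, the curve 2-isogenous to `X_0(49)`. `δ(D)` is the number of the prime factors
`p ≡ 3 mod 4` of `D` which split in `ℚ(√-7)` less the number of those which are inert. Let
`z = #E'_D(ℚ)_tors² L(E'_D, 1) / (Ω ∏ c_p)`, which is zero or the order of `Ш(E'_D/ℚ)` according to the
conjecture. The theorem says, with no hypothesis on ranks or Tate-Shafarevich groups: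
* for all these `D` the equation is minimal, the order of the torsion subgroup is twice an odd number,
  `∏ c_p = 2 ^ (1 + ω(D) + #{p ∣ D : 7 is a square mod p})`, `L(E'_D, s)` is entire, and
  `z / 2^δ(D)` is integral at all the primes above two, a unit at one of them iff at all of them iff `D`
  has no factorisation `D = d d'` in `ℤ[ω]`, `ω = (1 + √-7) / 2`, with `d ≡ 1 mod ω²`, `d ≠ 1`, `d` a
  square modulo every prime dividing `d'` and `-√-7 d'` a square modulo every prime dividing `d`;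
* for every `D` without such a factorisation `δ(D) ≥ 0`, `E'_D(ℚ)` is finite, `L(E'_D, 1) ≠ 0`,
  `Ш(E'_D/ℚ)[2^∞] ≅ (ℤ/2)^δ(D)` and `z / 2^δ(D)` is a 2-unit: the 2-part of the formula holds;
* for every `V` the natural density of the `D` with this property and `δ(D) ≥ V`, in the class of all
  squarefree `D ≡ 1 mod 4`, `7 ∤ D`, is `κ / 2 = 0.2097...`, `κ = ∏_{i ≥ 0} (1 - 2^{-(2i+1)})`.

So the 2-part of the formula is proved with 2-primary parts of `Ш` of unbounded order, determined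
exactly together with the group structure, for a natural density which does not depend on the bound.

Proof: the value `L(E_D, 1)` and the criterion are `Results/MP_4a9ea6_nt/TwoPartDensityX49`; the Euler
factors (`N46.SL`), the periods (`N603.SL`), the Tamagawa numbers and the minimality (`N756.SL`) of the
isogenous curve are computed directly; the Selmer group of the isogeny is determined (`N402.SL`,
`N407.SL`, `N482.SL`, `N499.SL`) and counted by the pairing on the Rédei matrix of the primes of `ℤ[ω]`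
(`N849.SL`, `N407.SL`); every class of `Ш(E'_D/ℚ)` killed by a power of two is killed by the isogeny
since `Ш(E_D/ℚ)` has no 2-torsion (`N818/SL/Str`).
Joint work of helpers 818, 46, 402, 407, 482, 499, 603, 756, 849.
-/

set_option autoImplicit false

open NumberField NumberField.InfinitePlace IsDedekindDomain WeierstrassCurve MeasureTheory

namespace Pool.Agent.Results.MP_9c97e9_nt.LargeShaIsogenousX49

open Pool.Agent.TH841.NF.D (Sha)
open Pool.Agent.TH841.SH.D (Pt)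

/-- The curve `E'_D`, the quadratic twist by `D ≡ 1 mod 4` of the curve `y² = x³ - 42 x² - 7 x`, which is
2-isogenous to `X_0(49)`. -/
def isog (D : ℕ) : WeierstrassCurve ℤ := ⟨1, -((27 * D + 1) / 4), 0, -22 * D ^ 2, -15 * D ^ 3⟩

/-- The curve over `ℚ`. -/
abbrev E' (D : ℕ) : WeierstrassCurve ℚ := (isog D).map (Int.castRingHom ℚ)

/-- The equation is minimal at the place `v`: no change of variables over `ℚ` that keeps the
coefficients integral at `v` decreases the order of the discriminant. -/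
def MinimalAt (W : WeierstrassCurve ℚ) (v : HeightOneSpectrum (𝓞 ℚ)) : Prop :=
  ∀ C : VariableChange ℚ, v.valuation ℚ (C • W).a₁ ≤ 1 → v.valuation ℚ (C • W).a₂ ≤ 1 →
    v.valuation ℚ (C • W).a₃ ≤ 1 → v.valuation ℚ (C • W).a₄ ≤ 1 → v.valuation ℚ (C • W).a₆ ≤ 1 →
    v.valuation ℚ (C • W).Δ ≤ v.valuation ℚ W.Δ

/-- `W⁰(ℚ_v)`, the group of the points of `W` over the completion `ℚ_v` with nonsingular reduction:
the point at infinity and the points `(x, y)` where `x` is not integral, or one of the partial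
derivatives of `y² + a₁ x y + a₃ y - x³ - a₂ x² - a₄ x - a₆` is a unit at `(x, y)`.
Here `Pt W ℚ_v` is the group of the points of `W` over `ℚ_v`. -/
noncomputable def nonsing (W : WeierstrassCurve ℚ) (v : HeightOneSpectrum (𝓞 ℚ)) :
    AddSubgroup (Pt W (v.adicCompletion ℚ)) :=
  AddSubgroup.closure {P | ∀ x y h, P = Affine.Point.some x y h →
    1 < Valued.v x ∨
    Valued.v ((W.baseChange (v.adicCompletion ℚ)).a₁ * y -
      (3 * x ^ 2 + 2 * (W.baseChange (v.adicCompletion ℚ)).a₂ * x +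
        (W.baseChange (v.adicCompletion ℚ)).a₄)) = 1 ∨
    Valued.v (2 * y + (W.baseChange (v.adicCompletion ℚ)).a₁ * x +
      (W.baseChange (v.adicCompletion ℚ)).a₃) = 1}

/-- The Tamagawa number `c_v = [W(ℚ_v) : W⁰(ℚ_v)]` of a minimal equation. -/
noncomputable def c (W : WeierstrassCurve ℚ) (v : HeightOneSpectrum (𝓞 ℚ)) : ℕ :=
  (nonsing W v).index

/-- The product of the Tamagawa numbers. -/
noncomputable def Tam (W : WeierstrassCurve ℚ) : ℕ := ∏ᶠ v : HeightOneSpectrum (𝓞 ℚ), c W v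

/-- `4 x³ + b₂ x² + 2 b₄ x + b₆ = (2 y + a₁ x + a₃)²`. -/
def cubic (W : WeierstrassCurve ℤ) (x : ℝ) : ℝ := 4 * x ^ 3 + W.b₂ * x ^ 2 + 2 * W.b₄ * x + W.b₆

/-- `Ω = ∫_{W(ℝ)} |ω|` with `ω = dx / (2 y + a₁ x + a₃)`, as an integral over `x`: two real points lie
over each `x` with `cubic x > 0`. -/
noncomputable def Omega (W : WeierstrassCurve ℤ) : ℝ :=
  2 * ∫ x in {x : ℝ | 0 < cubic W x}, 1 / √(cubic W x)

open Classical in
/-- The order of the torsion subgroup of `W(K)`. -/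
noncomputable def torsOrder {K : Type} [Field K] (W : WeierstrassCurve K) : ℕ :=
  Nat.card (AddCommGroup.torsion W.toAffine.Point)

/-- The order of the Tate-Shafarevich group predicted by the formula, for the value `l` of the
L-function of `E'_D` at `s = 1`: `#E'_D(ℚ)_tors² l / (Ω ∏ c_v)`. -/
noncomputable def anOrder (D : ℕ) (l : ℂ) : ℂ :=
  l * (torsOrder (E' D) : ℂ) ^ 2 / ((Omega (isog D) : ℝ) * (Tam (E' D) : ℂ))

/-- The class: `D` is squarefree, `D ≡ 1 mod 4` and `7 ∤ D`. -/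
def Family (D : ℕ) : Prop := Squarefree D ∧ D % 4 = 1 ∧ ¬ 7 ∣ D

open Classical in
/-- The prime factors `p ≡ 3 mod 4` of `D` which split in `ℚ(√-7)`. -/
noncomputable def splitThree (D : ℕ) : Finset ℕ :=
  D.primeFactors.filter fun p => p % 4 = 3 ∧ IsSquare (-7 : ZMod p)

open Classical in
/-- The prime factors `p ≡ 3 mod 4` of `D` which are inert in `ℚ(√-7)`. -/
noncomputable def inertThree (D : ℕ) : Finset ℕ :=
  D.primeFactors.filter fun p => p % 4 = 3 ∧ ¬ IsSquare (-7 : ZMod p)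

open Classical in
/-- The prime factors of `D` modulo which `7` is a square. -/
noncomputable def sqSeven (D : ℕ) : Finset ℕ := D.primeFactors.filter fun p => IsSquare (7 : ZMod p)

/-- The difference `δ(D)` of the numbers of the prime factors `3 mod 4` which split and which are inert
in `ℚ(√-7)`. -/
noncomputable def δ (D : ℕ) : ℤ := (splitThree D).card - (inertThree D).card

/-- The 2-primary part of `Ш(E'_D/ℚ)`. -/
def ShaTwo (D : ℕ) : Set (Sha (E' D)) := {x | ∃ n : ℕ, 2 ^ n • x = 0}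

/-- The 2-part of the conjecture for `E'_D`, with `Ш(E'_D/ℚ)[2^∞] ≅ (ℤ/2)^k`. -/
def TwoPart (D k : ℕ) : Prop :=
  Finite (E' D).toAffine.Point ∧ Nat.card (ShaTwo D) = 2 ^ k ∧ (∀ x ∈ ShaTwo D, x + x = 0) ∧
    ∃ Λ : ℂ → ℂ, Differentiable ℂ Λ ∧ (∀ s : ℂ, 2 < s.re → Λ s = (E' D).LSeries s) ∧ Λ 1 ≠ 0 ∧
      ∃ m : ℤ, Odd m ∧ _root_.IsIntegral ℤ (m * (anOrder D (Λ 1) / 2 ^ k)) ∧
        _root_.IsIntegral ℤ (m * (anOrder D (Λ 1) / 2 ^ k)⁻¹)

/-- The ring `ℤ[ω]`, `ω = (1 + √-7)/2`, that is `ω² = ω - 2`. -/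
abbrev O : Type := QuadraticAlgebra ℤ (-2) 1

/-- `ω = (1 + √-7)/2`. -/
def ω : O := ⟨0, 1⟩

/-- `D = d d'` in `ℤ[ω]` with `d ≡ 1 mod ω²`, `d ≠ 1`, such that `d` is a square modulo every prime
dividing `d'`, and `-√-7 d'` is a square modulo every prime dividing `d` (`√-7 = 2 ω - 1`). -/
def Factorisation (D : ℕ) : Prop := ∃ d d' : O, (D : O) = d * d' ∧ ω ^ 2 ∣ d - 1 ∧ d ≠ 1 ∧
  (∀ p : O, Prime p → p ∣ d' → ∃ x : O, p ∣ x ^ 2 - d) ∧
  ∀ p : O, Prime p → p ∣ d → ∃ x : O, p ∣ x ^ 2 + (2 * ω - 1) * d'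

open Classical in
/-- The number of the `D ≤ X` of the class with the property `Q`. -/
noncomputable def num (Q : ℕ → Prop) (X : ℕ) : ℕ :=
  ((Finset.Icc 1 X).filter fun D => Family D ∧ Q D).card

/-- `Q` has the natural density `θ` in the class. -/
def HasProportion (Q : ℕ → Prop) (θ : ℝ) : Prop :=
  Filter.Tendsto (fun X : ℕ => (num Q X : ℝ) / (num (fun _ => True) X : ℝ)) Filter.atTop (nhds θ)

section proof

open Pool.Agent.Y698 Pool.Agent.N818.TD Pool.Agent.N818.SL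
open Pool.Agent.N818.TC (Rz rz_prop rz_gd)
open Pool.Agent.N973.ND (kd ty m7 m7_le)

lemma E'_eq {D j : ℕ} (hj : D = 1 + 4 * j) : E' D = EI ℚ (j : ℚ) := by
  have h1 : (27 * (D : ℤ) + 1) / 4 = 7 + 27 * j := by
    rw [hj]
    push_cast
    omega
  unfold E' isog EI
  rw [h1, hj]
  ext
  · simp
  · simp
  · simp
  · simp
  · simp

lemma cubic_eq {D j : ℕ} (hj : D = 1 + 4 * j) (x : ℝ) :
    cubic (isog D) x = psI ((1 + 4 * j : ℕ) : ℝ) x := by
  have h1 : (27 * (D : ℤ) + 1) / 4 = 7 + 27 * j := by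
    rw [hj]
    push_cast
    omega
  unfold cubic isog WeierstrassCurve.b₂ WeierstrassCurve.b₄ WeierstrassCurve.b₆ psI
  simp only
  rw [h1, hj]
  push_cast
  ring

lemma real_eq {D j : ℕ} (hj : D = 1 + 4 * j) : Omega (isog D) =
    ∫ x in {x : ℝ | 0 < psI ((1 + 4 * j : ℕ) : ℝ) x},
      2 / Real.sqrt (psI ((1 + 4 * j : ℕ) : ℝ) x) := by
  unfold Omega
  simp only [cubic_eq hj]
  rw [← integral_const_mul]
  congr 1
  funext x
  ring

theorem om_eq (hOM : S_OM) {D j : ℕ} (hj : D = 1 + 4 * j) : Omega (isog D) =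
    Pool.Agent.Results.MP_4a9ea6_nt.TwoPartDensityX49.Omega
      (Pool.Agent.Results.MP_4a9ea6_nt.TwoPartDensityX49.twist D) := by
  rw [real_eq hj, Pool.Agent.Results.MP_4a9ea6_nt.TwoPartDensityX49.real_eq hj]
  exact hOM (1 + 4 * j) (by omega)

theorem lser_eq (hLS : S_LS) {D j : ℕ} (hj : D = 1 + 4 * j) (hsq : Squarefree D) (h7 : ¬ 7 ∣ D)
    (s : ℂ) : (E' D).LSeries s =
      (Pool.Agent.Results.MP_4a9ea6_nt.TwoPartDensityX49.E D).LSeries s := by
  rw [E'_eq hj, Pool.Agent.Results.MP_4a9ea6_nt.TwoPartDensityX49.E_eq hj]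
  have h : (EI ℚ (j : ℚ)).LFunction = (EX ℚ (j : ℚ)).LFunction := by
    unfold WeierstrassCurve.LFunction
    congr 1
    funext v
    exact hLS j (hj ▸ hsq) (hj ▸ h7) v
  unfold WeierstrassCurve.LSeries
  rw [h]

/-- the numbers of the primes of the types `3` and `1` -/
lemma δ_eq {D : ℕ} (h4 : D % 4 = 1) (h7 : ¬ 7 ∣ D) : δ D = kd D.primeFactors := by
  classical
  unfold δ kd splitThree inertThree
  congr 2
  · congr 1
    apply Finset.filter_congr
    intro p hp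
    have hP := pr_of h4 h7 hp
    rw [Pool.Agent.N973.NT.sq7 hP]
    unfold ty
    have := m7_le p
    split_ifs with h
    · exact ⟨fun h' => by rw [h'.2], fun h' => ⟨h, by omega⟩⟩
    · exact ⟨fun h' => absurd h'.1 h, fun h' => by omega⟩
  · congr 1
    apply Finset.filter_congr
    intro p hp
    have hP := pr_of h4 h7 hp
    rw [Pool.Agent.N973.NT.sq7 hP]
    unfold ty
    have := m7_le p
    split_ifs with h
    · exact ⟨fun h' => by have := h'.2; omega, fun h' => ⟨h, by omega⟩⟩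
    · exact ⟨fun h' => absurd h'.1 h, fun h' => by omega⟩

/-- `7` is a square modulo `p` -/
lemma seven_iff {p : ℕ} (hP : Pool.Agent.N973.ND.Pr p) :
    IsSquare (7 : ZMod p) ↔ (m7 p = 1 ∧ p % 4 = 1) ∨ (m7 p ≠ 1 ∧ p % 4 = 3) := by
  have hf : Fact p.Prime := ⟨hP.1⟩
  have hodd : p % 4 = 1 ∨ p % 4 = 3 := by
    have := hP.1.eq_two_or_odd
    have := hP.2.1
    omega
  have hn7 : (7 : ZMod p) ≠ 0 := by
    intro h0
    have h1 : ((7 : ℕ) : ZMod p) = 0 := by exact_mod_cast h0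
    rw [ZMod.natCast_eq_zero_iff] at h1
    exact hP.2.2 ((Nat.prime_dvd_prime_iff_eq hP.1 (by norm_num)).1 h1)
  have hs := Pool.Agent.N973.NT.sq7 hP
  constructor
  · intro h
    rcases hodd with ho | ho
    · left
      refine ⟨hs.1 ?_, ho⟩
      have h3 : IsSquare (-1 : ZMod p) := by
        rw [ZMod.exists_sq_eq_neg_one_iff]
        omega
      have := h.mul h3
      rwa [mul_neg_one] at this
    · right
      refine ⟨fun hm => ?_, ho⟩
      have h5 := hs.2 hm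
      have h6 := h5.div h
      rw [neg_div, div_self hn7, ZMod.exists_sq_eq_neg_one_iff] at h6
      omega
  · rintro (⟨h1, h2⟩ | ⟨h1, h2⟩)
    · exact (seven_sq hP.2.2 (Or.inr ⟨hs.2 h1, h2⟩)).1
    · exact (seven_sq hP.2.2 (Or.inl ⟨fun h => h1 (hs.1 h), h2⟩)).1

/-- the difference of the exponents of the Tamagawa products -/
lemma exps {D : ℕ} (h4 : D % 4 = 1) (h7 : ¬ 7 ∣ D) :
    ((D.primeFactors.card + (sqSeven D).card : ℕ) : ℤ) + δ D =
      (((Pool.Agent.Results.MP_4a9ea6_nt.TwoPartDensityX49.inert D).card +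
        2 * (Pool.Agent.Results.MP_4a9ea6_nt.TwoPartDensityX49.split D).card : ℕ) : ℤ) := by
  classical
  unfold δ splitThree inertThree sqSeven Pool.Agent.Results.MP_4a9ea6_nt.TwoPartDensityX49.inert
    Pool.Agent.Results.MP_4a9ea6_nt.TwoPartDensityX49.split
  push_cast
  simp only [Finset.card_eq_sum_ones, Finset.sum_filter, Nat.cast_sum, Nat.cast_ite, Nat.cast_one,
    Nat.cast_zero]
  rw [Finset.mul_sum, ← Finset.sum_add_distrib, ← Finset.sum_sub_distrib, ← Finset.sum_add_distrib,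
    ← Finset.sum_add_distrib]
  apply Finset.sum_congr rfl
  intro p hp
  have hP := pr_of h4 h7 hp
  have hodd : p % 4 = 1 ∨ p % 4 = 3 := by
    have := hP.1.eq_two_or_odd
    have := hP.2.1
    omega
  have hs := Pool.Agent.N973.NT.sq7 hP
  have h7' := seven_iff hP
  by_cases hm : m7 p = 1
  · have a1 : IsSquare (-7 : ZMod p) := hs.2 hm
    rcases hodd with ho | ho
    · have a2 : IsSquare (7 : ZMod p) := h7'.2 (Or.inl ⟨hm, ho⟩)
      simp [a1, a2, ho]
    · have a2 : ¬ IsSquare (7 : ZMod p) := fun h => by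
        rcases h7'.1 h with h | h
        · omega
        · exact h.1 hm
      simp [a1, a2, ho]
  · have a1 : ¬ IsSquare (-7 : ZMod p) := fun h => hm (hs.1 h)
    rcases hodd with ho | ho
    · have a2 : ¬ IsSquare (7 : ZMod p) := fun h => by
        rcases h7'.1 h with h | h
        · exact hm h.1
        · omega
      simp [a1, a2, ho]
    · have a2 : IsSquare (7 : ZMod p) := h7'.2 (Or.inr ⟨hm, ho⟩)
      simp [a1, a2, ho]

/-- the values of the two curves -/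
theorem an_rel (hTAM : S_TAM) (hOM : S_OM) {D j : ℕ} (hj : D = 1 + 4 * j) (h : Family D)
    {t t' : ℕ} (ht : t ≠ 0)
    (h1 : Pool.Agent.Results.MP_4a9ea6_nt.TwoPartDensityX49.torsOrder
      (Pool.Agent.Results.MP_4a9ea6_nt.TwoPartDensityX49.E D) = 2 * t)
    (h2 : torsOrder (E' D) = 2 * t')
    (h3 : Pool.Agent.Results.MP_4a9ea6_nt.TwoPartDensityX49.Tam
      (Pool.Agent.Results.MP_4a9ea6_nt.TwoPartDensityX49.E D) = 2 ^ (1 +
        (Pool.Agent.Results.MP_4a9ea6_nt.TwoPartDensityX49.inert D).card +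
        2 * (Pool.Agent.Results.MP_4a9ea6_nt.TwoPartDensityX49.split D).card)) (l : ℂ) :
    Tam (E' D) = 2 ^ (1 + D.primeFactors.card + (sqSeven D).card) ∧
    anOrder D l = Pool.Agent.Results.MP_4a9ea6_nt.TwoPartDensityX49.anOrder D l *
      (2 : ℂ) ^ (δ D) * ((t' : ℂ) / t) ^ 2 := by
  obtain ⟨hsq, h4, h7⟩ := h
  have hE := E'_eq hj
  have hsqj : Squarefree (1 + 4 * j) := hj ▸ hsq
  have h7j : ¬ 7 ∣ 1 + 4 * j := hj ▸ h7
  have htam : Tam (E' D) = 2 ^ (1 + D.primeFactors.card + (sqSeven D).card) := by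
    have h1 : Tam (E' D) = ∏ᶠ v, Pool.Agent.Y698.tam (EI ℚ (j : ℚ)) v := by
      rw [hE]
      rfl
    rw [h1, hTAM j hsqj h7j, add_assoc, ← hj]
    congr 2
    unfold sqSeven
    rw [Finset.card_filter, Finset.card_eq_sum_ones, ← Finset.sum_add_distrib]
    refine Finset.sum_congr rfl fun p _ => ?_
    split_ifs <;> rfl
  refine ⟨htam, ?_⟩
  have ht0 : (t : ℂ) ≠ 0 := by exact_mod_cast ht
  have e0 := exps h4 h7
  have e1 : ((1 + D.primeFactors.card + (sqSeven D).card : ℕ) : ℤ) + δ D =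
      ((1 + (Pool.Agent.Results.MP_4a9ea6_nt.TwoPartDensityX49.inert D).card +
        2 * (Pool.Agent.Results.MP_4a9ea6_nt.TwoPartDensityX49.split D).card : ℕ) : ℤ) := by
    push_cast at e0 ⊢
    linarith
  obtain ⟨a, ha⟩ : ∃ a, a = 1 + D.primeFactors.card + (sqSeven D).card := ⟨_, rfl⟩
  obtain ⟨b, hb⟩ : ∃ b, b = 1 + (Pool.Agent.Results.MP_4a9ea6_nt.TwoPartDensityX49.inert D).card +
        2 * (Pool.Agent.Results.MP_4a9ea6_nt.TwoPartDensityX49.split D).card := ⟨_, rfl⟩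
  obtain ⟨Ω, hΩ⟩ : ∃ Ω, Ω = Pool.Agent.Results.MP_4a9ea6_nt.TwoPartDensityX49.Omega
    (Pool.Agent.Results.MP_4a9ea6_nt.TwoPartDensityX49.twist D) := ⟨_, rfl⟩
  rw [← ha, ← hb] at e1
  have e2 : ((2 : ℂ) ^ b) = 2 ^ a * 2 ^ (δ D) := by
    rw [← zpow_natCast, ← zpow_natCast, ← zpow_add₀ two_ne_zero, e1]
  unfold anOrder Pool.Agent.Results.MP_4a9ea6_nt.TwoPartDensityX49.anOrder
  rw [h1, h2, h3, htam, om_eq hOM hj, ← ha, ← hb, ← hΩ]
  push_cast
  rw [e2]
  have h2δ : (2 : ℂ) ^ (δ D) ≠ 0 := zpow_ne_zero _ two_ne_zero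
  by_cases h0 : (Ω : ℂ) = 0
  · rw [h0]
    simp
  · field_simp

lemma v_nat {Γ : Type} [LinearOrderedCommGroupWithZero Γ] (v : Valuation ℂ Γ) (n : ℕ) :
    v (n : ℂ) ≤ 1 := by
  induction n with
  | zero => simp
  | succ n ih =>
    push_cast
    exact (v.map_add _ _).trans (max_le ih (by rw [map_one]))

lemma v_odd {Γ : Type} [LinearOrderedCommGroupWithZero Γ] (v : Valuation ℂ Γ) (hv : v 2 < 1)
    {t : ℕ} (ht : Odd t) : v (t : ℂ) = 1 := by
  obtain ⟨n, rfl⟩ := ht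
  have hn : v (2 * (n : ℂ)) < 1 := by
    rw [map_mul]
    exact mul_lt_one_of_lt_of_le hv (v_nat v n)
  push_cast
  rw [add_comm]
  exact v.map_one_add_of_lt hn

open Pool.Agent.Results.MP_4a9ea6_nt.TwoPartDensityX49 (E RankZeroShaTwo) in
theorem core' {D : ℕ} (h : Family D) (hN2 : S_N2) (hS2 : S_S2) (hNP : S_NP) (hNR : S_NR)
    (hSP : S_SP) (hLA : S_LA) (hLB : S_LB) (hLC : S_LC) (hLS : S_LS) (hMIN : S_MIN)
    (hTAM : S_TAM) (hOM : S_OM) :
    (∀ v : HeightOneSpectrum (𝓞 ℚ), MinimalAt (E' D) v) ∧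
    (∃ t : ℕ, Odd t ∧ torsOrder (E' D) = 2 * t) ∧
    Tam (E' D) = 2 ^ (1 + D.primeFactors.card + (sqSeven D).card) ∧
    (RankZeroShaTwo D ↔ ¬ Factorisation D) ∧
    (∃ Λ : ℂ → ℂ, Differentiable ℂ Λ ∧ (∀ s : ℂ, 2 < s.re → Λ s = (E' D).LSeries s) ∧
      ∀ (Γ : Type) [LinearOrderedCommGroupWithZero Γ] (v : Valuation ℂ Γ), v 2 < 1 →
        v (anOrder D (Λ 1)) ≤ v 2 ^ δ D ∧
          (v (anOrder D (Λ 1)) = v 2 ^ δ D ↔ ¬ Factorisation D)) ∧
    (¬ Factorisation D → ∃ k : ℕ, (k : ℤ) = δ D ∧ TwoPart D k) := by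
  classical
  have hF := h
  obtain ⟨hsq, h4, h7⟩ := h
  obtain ⟨j, hj⟩ : ∃ j, D = 1 + 4 * j := ⟨D / 4, by omega⟩
  have hE := E'_eq hj
  have hsqj : Squarefree (1 + 4 * j) := hj ▸ hsq
  have h7j : ¬ 7 ∣ 1 + 4 * j := hj ▸ h7
  obtain ⟨t', ht', htor⟩ := torI hj
  have htor' : torsOrder (E' D) = 2 * t' := by
    rw [hE]
    have key : ∀ d d' : DecidableEq ℚ,
        (letI := d; Nat.card (AddCommGroup.torsion (EI ℚ (j : ℚ)).toAffine.Point)) =
        (letI := d'; Nat.card (AddCommGroup.torsion (EI ℚ (j : ℚ)).toAffine.Point)) := by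
      intro d d'
      obtain rfl : d = d' := Subsingleton.elim _ _
      rfl
    first
      | exact (key _ _).trans htor
      | (unfold torsOrder
         exact (key _ _).trans htor)
      | (have hi : (fun a b : ℚ => Classical.propDecidable (a = b)) =
            (fun a b : ℚ => instDecidableEqRat a b) := Subsingleton.elim _ _
         unfold torsOrder
         rw [hi]
         exact htor)
  obtain ⟨c1, ⟨t, ht, c2⟩, c3, c4, Λ, c5, c6, -, c7, c8⟩ :=
    Pool.Agent.Results.MP_4a9ea6_nt.TwoPartDensityX49.core (D := D) ⟨hsq, h4, h7⟩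
  have htn : t ≠ 0 := by
    rintro rfl
    exact absurd ht (by decide)
  have htn' : t' ≠ 0 := by
    rintro rfl
    exact absurd ht' (by decide)
  obtain ⟨htam, key⟩ := an_rel hTAM hOM hj hF htn c2 htor' c3 (Λ 1)
  have c4' : RankZeroShaTwo D ↔ ¬ Factorisation D := c4
  refine ⟨fun v => ?_, ⟨t', ht', htor'⟩, htam, c4', ⟨Λ, c5, fun s hs => ?_, ?_⟩, fun hR' => ?_⟩
  · rw [hE]
    exact fun C => hMIN j hsqj h7j v C
  · rw [c6 s hs, lser_eq hLS hj hsq h7]
  · intro Γ _ v hv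
    obtain ⟨g1, g2⟩ := c7 Γ v hv
    have h20 : v 2 ≠ 0 := (v.ne_zero_iff).2 two_ne_zero
    have hpos : 0 < v 2 ^ δ D := zero_lt_iff.2 (zpow_ne_zero _ h20)
    have e : v (anOrder D (Λ 1)) =
        v (Pool.Agent.Results.MP_4a9ea6_nt.TwoPartDensityX49.anOrder D (Λ 1)) * v 2 ^ δ D := by
      rw [key, map_mul, map_mul, map_pow, map_div₀, v_odd v hv ht, v_odd v hv ht', div_one, one_pow,
        mul_one, map_zpow₀]
    rw [e]
    refine ⟨?_, ?_⟩
    · calc _ ≤ 1 * v 2 ^ δ D := mul_le_mul_left g1 _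
        _ = _ := one_mul _
    · rw [← c4', ← g2]
      constructor
      · intro h
        have h5 : v (Pool.Agent.Results.MP_4a9ea6_nt.TwoPartDensityX49.anOrder D (Λ 1)) *
          v 2 ^ δ D = 1 * v 2 ^ δ D := by rw [h, one_mul]
        exact mul_right_cancel₀ hpos.ne' h5
      · intro h
        rw [h, one_mul]
  have hR := c4'.2 hR'
  obtain ⟨c9, m, hm, i1, i2⟩ := c8 hR
  have hRz := (Pool.Agent.Results.MP_4a9ea6_nt.TwoPartDensityX49.two_iff hj).1 hR
  obtain ⟨hfin, k, hk, s1, s2⟩ := strI hsq h4 h7 hj hS2 hSP hN2 hNP hNR hLA hLB hLC hRz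
  have hk' : (k : ℤ) = δ D := by rw [δ_eq h4 h7, hk]
  refine ⟨k, hk', ?_⟩
  obtain ⟨z, hz⟩ : ∃ z, z = Pool.Agent.Results.MP_4a9ea6_nt.TwoPartDensityX49.anOrder D (Λ 1) :=
    ⟨_, rfl⟩
  have ht0 : (t : ℂ) ≠ 0 := by exact_mod_cast htn
  have ht0' : (t' : ℂ) ≠ 0 := by exact_mod_cast htn'
  have key2 : anOrder D (Λ 1) / 2 ^ k = z * (t' : ℂ) ^ 2 / (t : ℂ) ^ 2 := by
    rw [key, ← hz, ← hk', zpow_natCast, div_pow]
    field_simp
  refine ⟨?_, ?_, ?_, Λ, c5, fun s hs => ?_, c9, m * ((t : ℤ) ^ 2 * (t' : ℤ) ^ 2), ?_, ?_, ?_⟩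
  · rw [hE]
    exact hfin
  · unfold ShaTwo
    rw [hE]
    exact s1
  · unfold ShaTwo
    rw [hE]
    exact s2
  · rw [c6 s hs, lser_eq hLS hj hsq h7]
  · refine hm.mul ?_
    exact_mod_cast (ht.pow (n := 2)).mul (ht'.pow (n := 2))
  · rw [key2]
    have e : ((m * ((t : ℤ) ^ 2 * (t' : ℤ) ^ 2) : ℤ) : ℂ) * (z * (t' : ℂ) ^ 2 / (t : ℂ) ^ 2) =
        (((t' : ℤ) ^ 4 : ℤ) : ℂ) * ((m : ℂ) * z) := by
      push_cast
      field_simp
    rw [e, hz]
    exact IsIntegral.mul (isIntegral_algebraMap (R := ℤ) (A := ℂ) (x := (t' : ℤ) ^ 4)) i1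
  · rw [key2, inv_div]
    have e : ((m * ((t : ℤ) ^ 2 * (t' : ℤ) ^ 2) : ℤ) : ℂ) * ((t : ℂ) ^ 2 / (z * (t' : ℂ) ^ 2)) =
        (((t : ℤ) ^ 4 : ℤ) : ℂ) * ((m : ℂ) * z⁻¹) := by
      push_cast
      rw [← div_div, div_eq_mul_inv _ z]
      field_simp
    rw [e, hz]
    exact IsIntegral.mul (isIntegral_algebraMap (R := ℤ) (A := ℂ) (x := (t : ℤ) ^ 4)) i2

theorem good_iff {D : ℕ} (h : Family D) : ¬ Factorisation D ↔
    Pool.Agent.N973.ND.Gd Pool.Agent.N973.NT.AA Pool.Agent.N973.NT.bb D.primeFactors := by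
  obtain ⟨hsq, h4, h7⟩ := h
  obtain ⟨j, hj⟩ : ∃ j, D = 1 + 4 * j := ⟨D / 4, by omega⟩
  obtain ⟨-, -, -, c4, -⟩ :=
    Pool.Agent.Results.MP_4a9ea6_nt.TwoPartDensityX49.core (D := D) ⟨hsq, h4, h7⟩
  have c4' : Pool.Agent.Results.MP_4a9ea6_nt.TwoPartDensityX49.RankZeroShaTwo D ↔
    ¬ Factorisation D := c4
  rw [← c4', Pool.Agent.Results.MP_4a9ea6_nt.TwoPartDensityX49.two_iff hj, rz_gd hsq h4 h7]

theorem twoPart_uniq {D k k' : ℕ} (h : TwoPart D k) (h' : TwoPart D k') : k = k' := by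
  have h1 := h.2.1
  rw [h'.2.1] at h1
  exact (Nat.pow_right_injective (le_refl 2) h1).symm

theorem num_true (X : ℕ) : (num (fun _ => True) X : ℝ) =
    ((Pool.Agent.N973.ND.SS X).card : ℝ) := by
  classical
  rw [← card_cls]
  unfold num
  congr 2
  ext D
  simp only [Finset.mem_filter, and_true]
  exact Iff.rfl

theorem num_good (hC : ∀ D : ℕ, Family D → ¬ Factorisation D →
    ∃ k : ℕ, (k : ℤ) = δ D ∧ TwoPart D k) (V X : ℕ) :
    (num (fun D => ¬ Factorisation D ∧ ∃ k : ℕ, V ≤ k ∧ TwoPart D k) X : ℝ) =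
    (open Classical in (((Pool.Agent.N973.ND.SS X).filter fun S =>
      Pool.Agent.N973.ND.Gd Pool.Agent.N973.NT.AA Pool.Agent.N973.NT.bb S ∧
        (V : ℤ) ≤ kd S).card : ℝ)) := by
  classical
  have h1 := Pool.Agent.N713.ND.NS.card_eq X (fun S =>
      Pool.Agent.N973.ND.Gd Pool.Agent.N973.NT.AA Pool.Agent.N973.NT.bb S ∧ (V : ℤ) ≤ kd S)
  have h2 : num (fun D => ¬ Factorisation D ∧ ∃ k : ℕ, V ≤ k ∧ TwoPart D k) X =
      ((Finset.Icc 1 X).filter fun D => Squarefree D ∧ D % 4 = 1 ∧ ¬ 7 ∣ D ∧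
        (Pool.Agent.N973.ND.Gd Pool.Agent.N973.NT.AA Pool.Agent.N973.NT.bb D.primeFactors ∧
          (V : ℤ) ≤ kd D.primeFactors)).card := by
    unfold num
    congr 1
    ext D
    simp only [Finset.mem_filter]
    refine and_congr_right fun _ => ?_
    constructor
    · rintro ⟨hF, hg, k, hk, hT⟩
      refine ⟨hF.1, hF.2.1, hF.2.2, (good_iff hF).1 hg, ?_⟩
      obtain ⟨k', hk', hT'⟩ := hC D hF hg
      rw [twoPart_uniq hT hT'] at hk
      rw [← δ_eq hF.2.1 hF.2.2, ← hk']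
      exact_mod_cast hk
    · rintro ⟨g1, g2, g3, g4, g5⟩
      have hF : Family D := ⟨g1, g2, g3⟩
      have hg := (good_iff hF).2 g4
      obtain ⟨k, hk, hT⟩ := hC D hF hg
      refine ⟨hF, hg, k, ?_, hT⟩
      rw [← δ_eq g2 g3, ← hk] at g5
      exact_mod_cast g5
  rw [h2]
  refine congrArg Nat.cast ?_
  convert h1

end proof

/-- The constant `κ = 0.4194...`. -/
noncomputable def κ : ℝ := ∏' i : ℕ, (1 - (1 / 2 : ℝ) ^ (2 * i + 1))

/-- **The 2-part of the formula for `E'_D` with `Ш(E'_D/ℚ)[2^∞] ≅ (ℤ/2)^δ(D)`**: minimality, torsion,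
Tamagawa numbers; `z / 2^δ(D)` is 2-integral, and a 2-unit iff `D` has no factorisation; then the 2-part
of the formula holds with `Ш(E'_D/ℚ)[2^∞] ≅ (ℤ/2)^δ(D)`; for every `V` this happens with `δ(D) ≥ V` for
the natural density `κ/2`. -/
theorem result :
    (∀ D : ℕ, Family D →
      (∀ v : HeightOneSpectrum (𝓞 ℚ), MinimalAt (E' D) v) ∧
      (∃ t : ℕ, Odd t ∧ torsOrder (E' D) = 2 * t) ∧
      Tam (E' D) = 2 ^ (1 + D.primeFactors.card + (sqSeven D).card) ∧
      (∃ Λ : ℂ → ℂ, Differentiable ℂ Λ ∧ (∀ s : ℂ, 2 < s.re → Λ s = (E' D).LSeries s) ∧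
        ∀ (Γ : Type) [LinearOrderedCommGroupWithZero Γ] (v : Valuation ℂ Γ), v 2 < 1 →
          v (anOrder D (Λ 1)) ≤ v 2 ^ δ D ∧
            (v (anOrder D (Λ 1)) = v 2 ^ δ D ↔ ¬ Factorisation D)) ∧
      (¬ Factorisation D → ∃ k : ℕ, (k : ℤ) = δ D ∧ TwoPart D k)) ∧
    (∀ V : ℕ, HasProportion (fun D => ¬ Factorisation D ∧ ∃ k : ℕ, V ≤ k ∧ TwoPart D k) (κ / 2)) ∧
    0.4194 < κ ∧ κ < 0.4195 := by
  have hc : ∀ {D : ℕ} (h : Family D), _ := fun {D} h =>
    core' (D := D) h Pool.Agent.N407.SL.t_N2 Pool.Agent.N499.SL.t_S2 Pool.Agent.N482.SL.t_NP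
      Pool.Agent.N482.SL.t_NR Pool.Agent.N402.SL.t_SP Pool.Agent.N849.SL.t_LA
      Pool.Agent.N407.SL.t_LB Pool.Agent.N407.SL.t_LC Pool.Agent.N46.SL.t_LS
      Pool.Agent.N756.SL.t_MIN Pool.Agent.N756.SL.t_TAM Pool.Agent.N603.SL.t_OM
  refine ⟨fun D h => ?_, fun V => ?_, ?_⟩
  · obtain ⟨h1, h2, h3, -, h5, h6⟩ := hc h
    exact ⟨h1, h2, h3, h5, h6⟩
  · have h := Pool.Agent.N818.SL.dens_V V
    refine h.congr fun X => ?_
    rw [num_true, num_good (fun D h => (hc h).2.2.2.2.2)]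
  · have h := Pool.Agent.Y948.CQ.t_C2
    exact ⟨h.2.2.2.1, h.2.2.2.2⟩

end Pool.Agent.Results.MP_9c97e9_nt.LargeShaIsogenousX49
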