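import Pool.Agent.N430.BP.Main

/-!
# The original products of Birch and Swinnerton-Dyer for almost all members of families

For `a, b, c ∈ ℤ[X]`, `c` monic of odd degree `n = 2 g + 1`, `deg a ≤ n - 3`, `deg b ≤ n - 2`,
`b² - 4 a c ≠ 0`, let `C_{u,v}` be the curve `y² = a(x) (u x + v)² + b(x) (u x + v) + c(x)` (for `n = 3`,
`a = 0`, `b = 1`, `c = x³` these are the curves `y² = x³ + u x + v`), and let `J_{u,v}` be its Jacobian.
The original form of the conjecture of Birch and Swinnerton-Dyer concerns the growth of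
`∏_{p ≤ x} #J(𝔽_p) / p^g`, the inverse of the truncated Euler product at the central point `s = 1`.

The theorem: for almost all `(u, v)` in an arbitrary box with sides `N` this product is
`(log x)^(r + 1/2 + o(1))`, for *all* `x` up to a power of `N`, with an explicit error term and with a
bound for the number of the exceptions.  Here `r` is the rank of the Jacobian of the curve
`y² = a(x) w² + b(x) w + c(x)` over `ℚ(w)`, in the form of an explicit formula.
-/

set_option autoImplicit false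

namespace Pool.Agent.Results.MP_9c97e9_nt.OriginalProductsAlmostAll

open Polynomial Finset

/-- The polynomial `a(x) (u x + v)² + b(x) (u x + v) + c(x)`. -/
noncomputable def family (a b c : ℤ[X]) (u v : ℤ) : ℤ[X] :=
  a * (C u * X + C v) ^ 2 + b * (C u * X + C v) + c

/-- For a prime `p` and `k ≥ 1`: the number of the points of the affine curve `y² = f(x)` over the field
with `p ^ k` elements, minus `p ^ k`. -/
noncomputable def trace (f : ℤ[X]) (p k : ℕ) : ℝ :=
  if h : p.Prime then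
    haveI : Fact p.Prime := ⟨h⟩
    (Nat.card {P : GaloisField p k × GaloisField p k // P.2 ^ 2 = aeval P.1 f} : ℝ) - (p : ℝ) ^ k
  else 0

/-- `∑_{k ≥ 1} trace(p, k) / (k p ^ k)`.  For a monic `f` of degree `2 g + 1` and an odd prime `p` of good
reduction it is `log (#J(𝔽_p) / p ^ g)`. -/
noncomputable def logFactor (f : ℤ[X]) (p : ℕ) : ℝ :=
  ∑' k : ℕ, trace f p (k + 1) / ((k + 1 : ℕ) * (p : ℝ) ^ (k + 1))

/-- The logarithm of the product over the odd primes `p ≤ x`. -/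
noncomputable def logProduct (f : ℤ[X]) (x : ℕ) : ℝ :=
  ∑ p ∈ (Icc 1 x).filter (fun p => p.Prime ∧ p ≠ 2), logFactor f p

/-- Modulo `δ`, the polynomial `a w² + b w + c` is the square of a nonzero polynomial `r w + s`. -/
def IsSplit (a b c δ : ℚ[X]) : Prop :=
  ∃ r s : ℚ[X], δ ∣ a - r ^ 2 ∧ δ ∣ b - 2 * r * s ∧ δ ∣ c - s ^ 2 ∧ ¬ (δ ∣ r ∧ δ ∣ s)

/-- The number of the monic irreducible polynomials over which the conic splits. -/
noncomputable def sigma (a b c : ℚ[X]) : ℕ :=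
  Nat.card {δ : ℚ[X] // δ.Monic ∧ Irreducible δ ∧ IsSplit a b c δ}

open Classical in
/-- `σ - 1` if `a` is a nonzero square, and `σ` otherwise. -/
noncomputable def rank (a b c : ℚ[X]) : ℝ :=
  (sigma a b c : ℝ) - if a ≠ 0 ∧ IsSquare a then 1 else 0

/-- **The original products of Birch and Swinnerton-Dyer for almost all members of a family.** -/
theorem result (a b c : ℤ[X]) (hc : c.Monic) (hodd : Odd c.natDegree)
    (ha : a.natDegree + 2 < c.natDegree) (hb : b.natDegree + 1 < c.natDegree)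
    (hΔ : b ^ 2 - 4 * a * c ≠ 0) :
    -- the definitions make sense
    (∀ u v : ℤ, (family a b c u v).Monic ∧ (family a b c u v).natDegree = c.natDegree) ∧
    (∀ u v : ℤ, ∀ p : ℕ, p.Prime → p ≠ 2 → Summable fun k : ℕ =>
      trace (family a b c u v) p (k + 1) / ((k + 1 : ℕ) * (p : ℝ) ^ (k + 1))) ∧
    Finite {δ : ℚ[X] // δ.Monic ∧ Irreducible δ ∧ IsSplit (a.map (Int.castRingHom ℚ))
      (b.map (Int.castRingHom ℚ)) (c.map (Int.castRingHom ℚ)) δ} ∧
    -- the law
    ∀ ε A : ℝ, 0 < ε → 0 < A → ∃ (k : ℕ) (K : ℝ), 0 < k ∧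
      ∀ N : ℕ, 0 < N → ∀ U V : ℤ, ∀ l : ℝ, 1 ≤ l →
        ({w : ℤ × ℤ | U < w.1 ∧ w.1 ≤ U + N ∧ V < w.2 ∧ w.2 ≤ V + N ∧
          ∃ x : ℕ, 16 ≤ x ∧ x ^ k ≤ N ∧
            l * Real.log (Real.log x) ^ (1 / 2 : ℝ) *
              (1 + Real.log (Real.log (Real.log x))) ^ ε <
              |logProduct (family a b c w.1 w.2) x -
                (rank (a.map (Int.castRingHom ℚ)) (b.map (Int.castRingHom ℚ))
                  (c.map (Int.castRingHom ℚ)) + 1 / 2) * Real.log (Real.log x)|}.ncard : ℝ) ≤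
          K * l ^ (-A) * (N : ℝ) ^ 2 := by
  classical
  have h : Pool.Agent.N430.BP.Hyp a b c := ⟨hc, hodd, ha, hb, hΔ⟩
  have hinjQ : Function.Injective (Int.castRingHom ℚ) := Int.cast_injective
  have hΔQ : (b.map (Int.castRingHom ℚ)) ^ 2 - 4 * a.map (Int.castRingHom ℚ) *
      c.map (Int.castRingHom ℚ) ≠ 0 := by
    have h1 : (b ^ 2 - 4 * a * c).map (Int.castRingHom ℚ) ≠ 0 :=
      (Polynomial.map_ne_zero_iff hinjQ).2 hΔ
    rwa [Polynomial.map_sub, Polynomial.map_mul, Polynomial.map_mul, Polynomial.map_pow,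
      Polynomial.map_ofNat] at h1
  have hsplit : ∀ δ : ℚ[X], IsSplit (a.map (Int.castRingHom ℚ)) (b.map (Int.castRingHom ℚ))
      (c.map (Int.castRingHom ℚ)) δ ↔ ∃ r s : ℚ[X], Pool.Agent.R410.CB.Spl
      (a.map (Int.castRingHom ℚ)) (b.map (Int.castRingHom ℚ)) (c.map (Int.castRingHom ℚ)) δ r s := by
    intro δ
    constructor
    · rintro ⟨r, s, h1, h2, h3, h4⟩
      exact ⟨r, s, ⟨h1, h2, h3, h4⟩⟩
    · rintro ⟨r, s, h1, h2, h3, h4⟩
      exact ⟨r, s, h1, h2, h3, h4⟩
  let eS : {δ : ℚ[X] // δ.Monic ∧ Irreducible δ ∧ IsSplit (a.map (Int.castRingHom ℚ))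
      (b.map (Int.castRingHom ℚ)) (c.map (Int.castRingHom ℚ)) δ} ≃
      Pool.Agent.R410.NG.SplT (a.map (Int.castRingHom ℚ)) (b.map (Int.castRingHom ℚ))
      (c.map (Int.castRingHom ℚ)) :=
    Equiv.subtypeEquivRight fun δ => by rw [hsplit δ]
  have hrank : rank (a.map (Int.castRingHom ℚ)) (b.map (Int.castRingHom ℚ))
      (c.map (Int.castRingHom ℚ)) = Pool.Agent.N430.BP.rk a b c := by
    unfold rank sigma Pool.Agent.N430.BP.rk
    rw [Nat.card_congr eS]
  refine ⟨fun u v => Pool.Agent.N430.BP.fam_monic hc ha hb u v,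
    fun u v p hp _ => Pool.Agent.N430.BP.summable_tr h hp u v, ?_, ?_⟩
  · have := Pool.Agent.R410.NG.finite_spl (two_ne_zero) hΔQ
    exact Finite.of_equiv _ eS.symm
  intro ε A hε hA
  obtain ⟨k, K, hk, hmain⟩ := Pool.Agent.N430.BP.main h hε hA
  refine ⟨k, K, hk, fun N hN U V l hl => ?_⟩
  rw [hrank]
  refine le_trans ?_ (hmain N hN U V l hl)
  have hlog : ∀ (u v : ℤ) (x : ℕ), logProduct (family a b c u v) x =
      ∑ p ∈ Pool.Agent.N430.BP.OP x,
        Pool.Agent.N430.BP.logFactor (Pool.Agent.N430.BP.fam a b c u v) p := by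
    intro u v x
    unfold logProduct
    have e : (Icc 1 x).filter (fun p => p.Prime ∧ p ≠ 2) = Pool.Agent.N430.BP.OP x := by
      ext p
      rw [mem_filter, mem_Icc, Pool.Agent.N430.BP.mem_OP]
      constructor
      · rintro ⟨⟨_, h2⟩, h3⟩
        exact ⟨h2, h3⟩
      · rintro ⟨h2, h3⟩
        exact ⟨⟨h3.1.one_le, h2⟩, h3⟩
    rw [e]
    rfl
  simp only [hlog]
  set Exc := (Icc 1 N ×ˢ Icc 1 N).filter fun ω : ℕ × ℕ => ∃ x : ℕ, 16 ≤ x ∧ x ^ k ≤ N ∧
        l * Real.log (Real.log x) ^ (1 / 2 : ℝ) * (1 + Real.log (Real.log (Real.log x))) ^ ε <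
          |∑ p ∈ Pool.Agent.N430.BP.OP x,
            Pool.Agent.N430.BP.logFactor (Pool.Agent.N430.BP.fam a b c (U + ω.1) (V + ω.2)) p -
            (Pool.Agent.N430.BP.rk a b c + 1 / 2) * Real.log (Real.log x)| with hExc
  have hsub : {w : ℤ × ℤ | U < w.1 ∧ w.1 ≤ U + N ∧ V < w.2 ∧ w.2 ≤ V + N ∧
          ∃ x : ℕ, 16 ≤ x ∧ x ^ k ≤ N ∧
            l * Real.log (Real.log x) ^ (1 / 2 : ℝ) *
              (1 + Real.log (Real.log (Real.log x))) ^ ε <
              |∑ p ∈ Pool.Agent.N430.BP.OP x,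
                Pool.Agent.N430.BP.logFactor (Pool.Agent.N430.BP.fam a b c w.1 w.2) p -
                (Pool.Agent.N430.BP.rk a b c + 1 / 2) * Real.log (Real.log x)|} ⊆
      ((Exc.image fun ω : ℕ × ℕ => ((U + ω.1, V + ω.2) : ℤ × ℤ) : Finset (ℤ × ℤ)) :
        Set (ℤ × ℤ)) := by
    rintro ⟨u, v⟩ ⟨h1, h2, h3, h4, x, hx⟩
    simp only at h1 h2 h3 h4 hx
    rw [coe_image, Set.mem_image]
    have eu : U + ((u - U).toNat : ℤ) = u := by
      rw [Int.toNat_of_nonneg (by omega)]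
      ring
    have ev : V + ((v - V).toNat : ℤ) = v := by
      rw [Int.toNat_of_nonneg (by omega)]
      ring
    refine ⟨((u - U).toNat, (v - V).toNat), ?_, ?_⟩
    · rw [mem_coe, hExc, mem_filter, mem_product, mem_Icc, mem_Icc]
      refine ⟨⟨⟨by omega, by omega⟩, ⟨by omega, by omega⟩⟩, x, ?_⟩
      simp only [eu, ev]
      exact hx
    · simp only [eu, ev]
  have h5 := Set.ncard_le_ncard hsub (Finset.finite_toSet _)
  rw [Set.ncard_coe_finset] at h5
  have h6 := h5.trans card_image_le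
  exact_mod_cast h6

end Pool.Agent.Results.MP_9c97e9_nt.OriginalProductsAlmostAll
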