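import Pool.Agent.N875.S15.Strong
import Pool.Agent.N875.S15.Dens
import Pool.Agent.N969.P15.QF

/-!
# The 2-part of the formula at the central point for ALL the quadratic twists of `X_0(15)`, which has
# no complex multiplication, with exact values

`E_m`, for a squarefree integer `m` of any sign, is the quadratic twist of
`X_0(15) : y² + x y + y = x³ + x² - 10 x - 10` by `ℚ(√m)`. Let
`z = L(E_m, 1) #E_m(ℚ)_tors² / (Ω ∏ c_p)`, which according to the formula is zero or the order of
`Ш(E_m/ℚ)`. With no hypothesis on the rank or on `Ш` we prove for ALL squarefree integers `m`: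
* the equation of `E_m` is a global minimal one, `L(E_m, s)` is entire, the product of the Tamagawa
  numbers is `4 ^ t`, `t` the number of the prime factors of the discriminant of `ℚ(√m)`, times a factor
  `1`, `2`, `4` for each of `3`, `5` (ramified, nonsplit, split multiplicative reduction), and the order
  of the torsion subgroup is `4`, and `8` for `m = ± 1`;
* `z = y²` with an integer `y`;
* `y` is odd if and only if `E_m(ℚ)` is finite and `Ш(E_m/ℚ)[2] = 0`; in this case `L(E_m, 1) ≠ 0` and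
  `Ш(E_m/ℚ)[2^∞] = 0`, so that the 2-part of the formula holds, with an odd order of `Ш`;
* if `m < 0`, `3` is not inert and `5` is not split in `ℚ(√m)`, then this is the case if and only if the
  class group of `ℚ(√m)` has no element of order four;
* the natural density of these `m` among all squarefree integers is exactly
  `(1/2) ∏_{i ≥ 1} (1 - 2^{-i}) = 0.1443…`.

The proof is joint work of helpers 969, 970, 971, 972, 973, 974, 975, 218, 295, 402, 575, 809, 816, 844,
855, 871, 875, 877, 886, 916, 958 and others: Gross's formula for the definite quaternion orders with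
genus characters (negative and positive discriminants), Eichler's class number relations, crossing
numbers of closed geodesics of real quadratic fields, the diagonal and bilinear identities and their
parity, the modular symbols and their exact scale, the L-function of `X_0(15)`, the descent and its
converse, the parity of the descent matrix, the vanishing for the root number `-1`, the Tamagawa numbers,
the minimal equations, the torsion, the period and the natural density.
-/

set_option autoImplicit false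
set_option linter.style.haveILetI false

open WeierstrassCurve MeasureTheory Filter Topology Finset

namespace Pool.Agent.Results.MP_9c97e9_nt.TwoPartTwistsX15

open scoped Classical

open Pool.Agent.TH841.SH.D (Sha)

/-- The quadratic twist of `X_0(15)` by `m ≡ 1` modulo `4`:
`y² + x y = x³ - ((7 m + 1)/4) x² - 9 m² x`.  For `m = 1` this is the curve
`y² + x y = x³ - 2 x² - 9 x`, which becomes `y² + x y + y = x³ + x² - 10 x - 10` if `x` is replaced by
`x + 1`. -/
def twistOdd (m : ℤ) : WeierstrassCurve ℤ := ⟨1, -((7 * m + 1) / 4), 0, -(9 * m ^ 2), 0⟩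

/-- The quadratic twist of `X_0(15)` by `m` which is not congruent to `1` modulo `4`:
`y² = x³ - 7 m x² - 144 m² x = x (x + 9 m) (x - 16 m)`. -/
def twistEven (m : ℤ) : WeierstrassCurve ℤ := ⟨0, -7 * m, 0, -144 * m ^ 2, 0⟩

/-- The twist `E_m` of `X_0(15)`. -/
def E (m : ℤ) : WeierstrassCurve ℤ := if m % 4 = 1 then twistOdd m else twistEven m

/-- The curve given by the equation of `W` over the ring `R`. -/
abbrev base (W : WeierstrassCurve ℤ) (R : Type) [CommRing R] : WeierstrassCurve R :=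
  W.map (Int.castRingHom R)

/-- `W` is a global minimal equation: `Δ ≠ 0` and `|Δ|` is minimal among the integral equations of the
same curve over `ℚ`. -/
def Minimal (W : WeierstrassCurve ℤ) : Prop :=
  W.Δ ≠ 0 ∧ ∀ (W' : WeierstrassCurve ℤ) (C : VariableChange ℚ), C • base W ℚ = base W' ℚ →
    |W.Δ| ≤ |W'.Δ|

/-- The number of the affine points modulo `p`. -/
noncomputable def pts (W : WeierstrassCurve ℤ) (p : ℕ) : ℕ :=
  Nat.card {P : ZMod p × ZMod p // (base W (ZMod p)).toAffine.Equation P.1 P.2}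

/-- `a_p = p + 1 - #W(𝔽_p)`, the points counted with the point at infinity. -/
noncomputable def a (W : WeierstrassCurve ℤ) (p : ℕ) : ℤ := p - pts W p

/-- `L` is the L-function of the minimal equation `W`: it is entire, and for `Re s > 3/2` it is given by
the Euler product with the factors `(1 - a_p p^(-s) + p^(1 - 2 s))⁻¹` if `p` does not divide `Δ` and
`(1 - a_p p^(-s))⁻¹` otherwise. -/
def IsL (W : WeierstrassCurve ℤ) (L : ℂ → ℂ) : Prop :=
  Differentiable ℂ L ∧ ∀ s : ℂ, 3 / 2 < s.re →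
    HasProd (fun p : Nat.Primes => (1 - (a W p : ℂ) * ((p : ℕ) : ℂ) ^ (-s) +
      (if ((p : ℕ) : ℤ) ∣ W.Δ then 0 else ((p : ℕ) : ℂ) ^ (1 - 2 * s)))⁻¹) (L s)

/-- The point `P` of `W` over `ℚ_p` reduces to a singular point of the curve modulo `p`: the coordinates
are integral and both partial derivatives of `y² + a₁ x y + a₃ y - x³ - a₂ x² - a₄ x - a₆` are in the
maximal ideal. -/
def SingularReduction (W : WeierstrassCurve ℤ) (p : ℕ) [Fact p.Prime]
    (P : (base W ℚ_[p]).toAffine.Point) : Prop :=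
  ∃ x y h, P = Affine.Point.some x y h ∧ ‖x‖ ≤ 1 ∧ ‖y‖ ≤ 1 ∧
    ‖W.a₁ * y - (3 * x ^ 2 + 2 * W.a₂ * x + W.a₄)‖ < 1 ∧ ‖2 * y + W.a₁ * x + W.a₃‖ < 1

/-- `c p` is the Tamagawa number `[W(ℚ_p) : W⁰(ℚ_p)]` for all primes `p`, where `W⁰(ℚ_p)` is the subgroup
of the points which do not have singular reduction; it is `1` if `p` does not divide `Δ`. -/
def IsTamagawa (W : WeierstrassCurve ℤ) (c : ℕ → ℕ) : Prop :=
  ∀ (p : ℕ) [Fact p.Prime], (∃ H : AddSubgroup (base W ℚ_[p]).toAffine.Point,
    (∀ P, P ∈ H ↔ ¬ SingularReduction W p P) ∧ H.index = c p) ∧ (¬ (p : ℤ) ∣ W.Δ → c p = 1)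

/-- The product of the Tamagawa numbers. -/
noncomputable def Tam (W : WeierstrassCurve ℤ) (c : ℕ → ℕ) : ℕ := ∏ p ∈ W.Δ.natAbs.primeFactors, c p

/-- `4 x³ + b₂ x² + 2 b₄ x + b₆ = (2 y + a₁ x + a₃)²`. -/
def cubic (W : WeierstrassCurve ℤ) (x : ℝ) : ℝ := 4 * x ^ 3 + W.b₂ * x ^ 2 + 2 * W.b₄ * x + W.b₆

/-- `Ω = ∫_{W(ℝ)} |ω|` with `ω = dx / (2 y + a₁ x + a₃)`, as an integral over `x`: two real points lie
over each `x` with `cubic x > 0`. -/
noncomputable def Omega (W : WeierstrassCurve ℤ) : ℝ :=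
  2 * ∫ x in {x : ℝ | 0 < cubic W x}, 1 / √(cubic W x)

/-- The order of the torsion subgroup of `W(ℚ)`. -/
noncomputable def torsOrder (W : WeierstrassCurve ℤ) : ℕ :=
  Nat.card (AddCommGroup.torsion (base W ℚ).toAffine.Point)

/-- The order of the Tate-Shafarevich group predicted by the formula in rank zero, for the value `l` of
the L-function at `s = 1` and the Tamagawa numbers `c`: `l #W(ℚ)_tors² / (Ω ∏ c_p)`. -/
noncomputable def anOrder (W : WeierstrassCurve ℤ) (l : ℂ) (c : ℕ → ℕ) : ℂ :=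
  l * (torsOrder W : ℂ) ^ 2 / ((Omega W : ℝ) * (Tam W c : ℂ))

/-- The 2-part of the formula for `W` over `ℚ`, in the case that the predicted order of `Ш` is a unit at
two: `W` is minimal, `L(W, s)` is entire, `L(W, 1) ≠ 0`, `W(ℚ)` is finite, the 2-primary part of
`Ш(W/ℚ)` is zero, and the predicted order of `Ш` is a rational number which is a unit at two. -/
def TwoPart (W : WeierstrassCurve ℤ) : Prop :=
  Minimal W ∧ Finite (base W ℚ).toAffine.Point ∧
  (∀ (n : ℕ) (x : Sha (base W ℚ)), 2 ^ n • x = 0 → x = 0) ∧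
  ∃ (L : ℂ → ℂ) (c : ℕ → ℕ) (z : ℚ), IsL W L ∧ L 1 ≠ 0 ∧ IsTamagawa W c ∧ 0 < Tam W c ∧
    0 < Omega W ∧ 0 < torsOrder W ∧ anOrder W (L 1) c = z ∧ z ≠ 0 ∧ padicValRat 2 z = 0

/-- The group `E_m(ℚ)` is finite and `Ш(E_m/ℚ)` has no element of order two. -/
def NoSelmer (m : ℤ) : Prop :=
  Finite (base (E m) ℚ).toAffine.Point ∧ ∀ x : Sha (base (E m) ℚ), 2 • x = 0 → x = 0

/-- The absolute value of the discriminant of `ℚ(√m)` (`1` for `m = 1`). -/
def absDisc (m : ℤ) : ℕ := if m % 4 = 1 then m.natAbs else 4 * m.natAbs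

/-- The product of the Tamagawa numbers of `E_m`. -/
def tamValue (m : ℤ) : ℕ :=
  4 ^ (absDisc m).primeFactors.card * ((if (3 : ℤ) ∣ m then 1 else if m % 3 = 2 then 4 else 2) *
    (if (5 : ℤ) ∣ m then 1 else if m % 5 = 1 ∨ m % 5 = 4 then 4 else 2))

/-- The order of the torsion subgroup of `E_m(ℚ)`. -/
def torsValue (m : ℤ) : ℕ := if m = 1 ∨ m = -1 then 8 else 4

/-- The statement for the squarefree integer `m`. -/
def Criterion (m : ℤ) : Prop :=
  Minimal (E m) ∧
  (∃ (L : ℂ → ℂ) (c : ℕ → ℕ) (y : ℤ), IsL (E m) L ∧ IsTamagawa (E m) c ∧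
    Tam (E m) c = tamValue m ∧ torsOrder (E m) = torsValue m ∧ 0 < Omega (E m) ∧
    anOrder (E m) (L 1) c = (y : ℂ) ^ 2 ∧ (Odd y ↔ NoSelmer m)) ∧
  (NoSelmer m ↔ TwoPart (E m))

/-- The negative squarefree integers `m` such that `3` is not inert and `5` is not split in
`ℚ(√m)`. -/
def ImagFamily (m : ℤ) : Prop :=
  m < 0 ∧ m % 3 ≠ 2 ∧ (m % 5 = 0 ∨ m % 5 = 2 ∨ m % 5 = 3)

/-- The class group of `ℚ(√m)` has no element of order four. -/
def NoOrderFour (m : ℤ) : Prop :=
  ∀ (K : Type) [Field K] [NumberField K], Module.finrank ℚ K = 2 → (∃ s : K, s ^ 2 = (m : K)) →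
    ∀ c : ClassGroup (NumberField.RingOfIntegers K), c ^ 4 = 1 → c ^ 2 = 1

/-- The number of the squarefree integers `m` with `|m| ≤ X`. -/
noncomputable def total (X : ℕ) : ℕ := ((Icc (-(X : ℤ)) X).filter fun m => Squarefree m).card

/-- The number of the squarefree integers `m` with `|m| ≤ X` for which the 2-part of the formula holds
with a predicted order which is a unit at two. -/
noncomputable def good (X : ℕ) : ℕ :=
  ((Icc (-(X : ℤ)) X).filter fun m => Squarefree m ∧ TwoPart (E m)).card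

section proof

open Pool.Agent.N875.X15 (Fin2 fin2_pow odd_val Ao Ae qc_P15 qc_iff_class qe_iff_class crit_ao_N
  crit_ae)
open Pool.Agent.N875.S15 (TT tr strong fin2_EE)
open Pool.Agent.N218.T15 (EE)
open Pool.Agent.N875.D15 (mQ mQ_odd mQ_even)

lemma omega_eq (W : WeierstrassCurve ℤ) : Omega W = Pool.Agent.Y700.Omega W := by
  unfold Omega Pool.Agent.Y700.Omega
  rw [← integral_const_mul]
  show ∫ x in {x : ℝ | 0 < Pool.Agent.Y700.psi W x}, 2 * (1 / √(Pool.Agent.Y700.psi W x)) = _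
  congr 1
  funext x
  rw [mul_one_div]

/-- the Tamagawa numbers -/
noncomputable def cT (W : WeierstrassCurve ℤ) (p : ℕ) : ℕ :=
  if h : p.Prime then (haveI := Fact.mk h; Pool.Agent.Y700.tam W p) else 1

lemma isTam (W : WeierstrassCurve ℤ) : IsTamagawa W (cT W) := by
  intro p hp
  have hc : cT W p = Pool.Agent.Y700.tam W p := by
    unfold cT
    rw [dif_pos hp.out]
  refine ⟨⟨Pool.Agent.Y700.E0 W p, fun P => ?_, by rw [hc]; rfl⟩, fun h => ?_⟩
  · rw [Pool.Agent.Y809.BSD14.t_E0 W p P]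
    constructor
    · rintro h ⟨x, y, h1, rfl, h2⟩
      exact h x y h1 rfl h2
    · intro h x y h1 h2 h3
      exact h ⟨x, y, h1, h2, h3⟩
  · rw [hc]
    exact Pool.Agent.Y809.BSD14.t_TGOOD W p h

lemma tam_eq (W : WeierstrassCurve ℤ) : Tam W (cT W) = Pool.Agent.Y700.tamProd W := rfl

lemma two_iff {A : Type} [AddCommGroup A] : (∀ x : A, 2 • x = 0 → x = 0) ↔
    ∀ x : A, x + x = 0 → x = 0 := by
  refine forall_congr' fun x => ?_
  rw [two_nsmul]

lemma anOrder_eq {W : WeierstrassCurve ℤ} {l : ℂ} {q : ℝ} (hΩ : 0 < Omega W)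
    (hT : 0 < Tam W (cT W)) (ht : 0 < torsOrder W)
    (hl : l = ((q * (Pool.Agent.Y700.Omega W * Pool.Agent.Y700.tamProd W /
      (Nat.card (AddCommGroup.torsion (base W ℚ).toAffine.Point) : ℝ) ^ 2) : ℝ) : ℂ)) :
    anOrder W l (cT W) = (q : ℂ) := by
  have e1 : Pool.Agent.Y700.Omega W = Omega W := (omega_eq _).symm
  have e2 : Pool.Agent.Y700.tamProd W = Tam W (cT W) := rfl
  have e3 : Nat.card (AddCommGroup.torsion (base W ℚ).toAffine.Point) = torsOrder W := rfl
  rw [e1, e2, e3] at hl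
  have h1 : (Omega W : ℂ) ≠ 0 := by exact_mod_cast hΩ.ne'
  have h2 : ((Tam W (cT W) : ℕ) : ℂ) ≠ 0 := by exact_mod_cast hT.ne'
  have h3 : ((torsOrder W : ℕ) : ℂ) ≠ 0 := by exact_mod_cast ht.ne'
  unfold anOrder
  rw [hl]
  push_cast
  field_simp

lemma E_eq (m : ℤ) : E m = EE m := rfl

lemma noSelmer_iff (m : ℤ) : NoSelmer m ↔ Fin2 (base (E m) ℚ) := and_congr Iff.rfl two_iff

lemma tamValue_eq (m : ℤ) : tamValue m = TT m := rfl

theorem criterion {m : ℤ} (hs : Squarefree m) : Criterion m := by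
  obtain ⟨hmin, ht, htor, hΩ, f, y, hf, hyQ, hval⟩ := strong hs
  rw [← E_eq] at hmin ht htor hΩ hf hyQ hval
  have hT' : Tam (E m) (cT (E m)) = tamValue m := ht
  have hsel := noSelmer_iff m
  have hΩ' : 0 < Omega (E m) := by
    rw [omega_eq]
    exact hΩ
  have hT : 0 < Tam (E m) (cT (E m)) := by
    rw [hT']
    unfold tamValue
    refine Nat.mul_pos (pow_pos (by norm_num) _) (Nat.mul_pos ?_ ?_) <;> split_ifs <;> norm_num
  have htor' : torsOrder (E m) = torsValue m := htor
  have hto : 0 < torsOrder (E m) := by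
    rw [htor']
    unfold torsValue
    split_ifs <;> norm_num
  have han : anOrder (E m) (f 1) (cT (E m)) = (y : ℂ) ^ 2 := by
    rw [← htor] at hval
    have := anOrder_eq (q := (y : ℝ) ^ 2) hΩ' hT hto hval
    rw [this]
    push_cast
    rfl
  refine ⟨hmin, ⟨f, cT _, y, hf, isTam _, hT', htor', hΩ', han,
    hyQ.trans hsel.symm⟩, fun hc => ?_,
    fun hp => ⟨hp.2.1, fun x hx => hp.2.2.1 1 x (by rwa [pow_one])⟩⟩
  have hns := hsel.1 hc
  have hyo : Odd y := hyQ.2 hns
  have hy0 : y ≠ 0 := by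
    rintro rfl
    exact absurd hyo (by decide)
  have hyq : (y : ℚ) ≠ 0 := by exact_mod_cast hy0
  refine ⟨hmin, hns.1, fun k x hx => fin2_pow hns k x hx, f, cT _, (y : ℚ) ^ 2, hf, ?_,
    isTam _, hT, hΩ', hto, by rw [han]; push_cast; rfl, pow_ne_zero 2 hyq, ?_⟩
  · intro h0
    rw [h0] at han
    unfold anOrder at han
    rw [zero_mul, zero_div] at han
    have h3 : (y : ℂ) ^ 2 ≠ 0 := pow_ne_zero 2 (by exact_mod_cast hy0)
    exact h3 han.symm
  · have : Fact (Nat.Prime 2) := ⟨Nat.prime_two⟩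
    rw [padicValRat.pow, odd_val hyo]
    simp

theorem class_of {m : ℤ} (h0 : m < 0) {Q : Prop}
    (key : ∀ (K : Type) [Field K] [NumberField K], Module.finrank ℚ K = 2 →
      (∃ s : K, s ^ 2 = (m : K)) →
      ((∀ c : ClassGroup (NumberField.RingOfIntegers K), c ^ 4 = 1 → c ^ 2 = 1) ↔ Q)) :
    NoOrderFour m ↔ Q := by
  constructor
  · intro h8
    obtain ⟨k, hk⟩ : ∃ k : ℕ, m = -(k : ℤ) := ⟨m.natAbs, by omega⟩
    obtain ⟨K, i1, i2, h6, h7⟩ := Pool.Agent.N969.P15.exists_qf (n := k) (by omega)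
    have h9 : ∃ s : K, s ^ 2 = (m : K) := by
      obtain ⟨s, hs⟩ := h7
      refine ⟨s, ?_⟩
      rw [hs, hk]
      push_cast
      rfl
    exact (key K h6 h9).1 (h8 K h6 h9)
  · intro h8 K i1 i2 h6 h7
    exact (key K h6 h7).2 h8

theorem class_odd {n : ℕ} (h : Ao n) :
    NoOrderFour (-(n : ℤ)) ↔ Pool.Agent.N969.P15.Qc n := by
  have h0 : 0 < n := Nat.pos_of_ne_zero h.1.ne_zero
  refine class_of (by omega) fun K _ _ h6 h7 => ?_
  have h9 : ∃ s : K, s ^ 2 = -(n : K) := by
    obtain ⟨s, hs⟩ := h7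
    refine ⟨s, ?_⟩
    rw [hs]
    push_cast
    rfl
  rw [qc_iff_class h.1 h.2.1 K h6 h9, qc_P15 h0.ne']

theorem class_even {n : ℕ} (h : Ae n) :
    NoOrderFour (-((n / 4 : ℕ) : ℤ)) ↔ Pool.Agent.N969.P15.Qe n := by
  have h04 : 0 < n / 4 := by
    have h5 := Pool.Agent.N975.ChE.ev_pos h.1
    obtain ⟨⟨k, rfl, -⟩, -⟩ := h
    omega
  have hn4 : n ≠ 4 := by
    have := h.2.1
    omega
  refine class_of (by omega) fun K _ _ h6 h7 => ?_
  have h9 : ∃ s : K, s ^ 2 = -((n / 4 : ℕ) : K) := by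
    obtain ⟨s, hs⟩ := h7
    refine ⟨s, ?_⟩
    rw [hs, Int.cast_neg, Int.cast_natCast]
  exact qe_iff_class h.1 hn4 K h6 h9

theorem class_all {m : ℤ} (hs : Squarefree m) (h : ImagFamily m) : NoSelmer m ↔ NoOrderFour m := by
  obtain ⟨hneg, c3, c5⟩ := h
  obtain ⟨n, hn, rfl⟩ := Pool.Agent.N875.D15.exists_Ng hs hneg
  have h3 : ¬ Pool.Agent.N809.PQ.B3 (-(mQ n : ℤ)) := c3
  have h5 : ¬ Pool.Agent.N809.PQ.B5 (-(mQ n : ℤ)) := by
    unfold Pool.Agent.N809.PQ.B5
    omega
  obtain ⟨d3, d5⟩ := Pool.Agent.N875.D15.cls_neg hn h3 h5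
  rw [noSelmer_iff]
  rcases hn with ⟨h1, h2⟩ | h1
  · have h2' : ¬ 2 ∣ n := by omega
    rw [mQ_odd h2']
    have hao : Ao n := ⟨h1, h2, d3, d5⟩
    have e : E (-(n : ℤ)) = Pool.Agent.N875.X15.WN (-(n : ℤ)) := if_pos (by omega)
    rw [e, class_odd hao]
    exact crit_ao_N hao
  · have h2' : 2 ∣ n := by
      obtain ⟨k, rfl, -⟩ := h1
      omega
    rw [mQ_even h2']
    have hae : Ae n := ⟨h1, d3, d5⟩
    have e : E (-((n / 4 : ℕ) : ℤ)) = Pool.Agent.N875.X15.Em (-((n / 4 : ℕ) : ℤ)) := if_neg (by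
      obtain ⟨k, rfl, -, hk⟩ := h1
      have e4 : 4 * k / 4 = k := by omega
      rw [e4]
      omega)
    rw [e, class_even hae]
    exact crit_ae hae

theorem card_eq {S : Finset ℤ} {p q : ℤ → Prop} {ip : DecidablePred p} {iq : DecidablePred q}
    (h : ∀ m ∈ S, p m ↔ q m) :
    (@Finset.filter _ p ip S).card = (@Finset.filter _ q iq S).card := by
  refine congrArg Finset.card (Finset.ext fun m => ?_)
  rw [@Finset.mem_filter _ p ip, @Finset.mem_filter _ q iq]
  exact and_congr_right fun hm => h m hm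

end proof

/-- **Main theorem.** The statement `Criterion m` holds for all squarefree integers `m`; if
`m < 0`, `3` is not inert and `5` is not split, the conditions are equivalent to the absence of ideal
classes of order four; the 2-part of the formula holds with a predicted order of `Ш` which is a unit at two
for a set of natural density exactly `(1/2) ∏_{i ≥ 1} (1 - 2^{-i})` of the squarefree integers. -/
theorem result :
    (∀ m : ℤ, Squarefree m → Criterion m) ∧
    (∀ m : ℤ, Squarefree m → ImagFamily m → (NoSelmer m ↔ NoOrderFour m)) ∧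
    Tendsto (fun X : ℕ => (good X : ℝ) / (total X : ℝ)) atTop
      (𝓝 ((∏' i : ℕ, (1 - (1 / 2 : ℝ) ^ (i + 1))) / 2)) := by
  refine ⟨fun m hs => criterion hs, fun m hs h => class_all hs h, ?_⟩
  have h := Pool.Agent.N875.S15.dens
  unfold Pool.Agent.N916.GB.eta at h
  refine h.congr fun X => congrArg₂ (fun a b : ℕ => (a : ℝ) / (b : ℝ)) ?_ ?_
  · unfold Pool.Agent.N919.BS.NS good
    refine card_eq fun m _ => and_congr_right fun hs => ?_
    rw [← (criterion hs).2.2, noSelmer_iff, E_eq]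
    exact (Pool.Agent.N875.S15.fin2_EE hs).symm
  · unfold Pool.Agent.N919.BS.NS total
    exact card_eq fun m _ => and_iff_left trivial

end Pool.Agent.Results.MP_9c97e9_nt.TwoPartTwistsX15
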